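import Pool.Agent.Y229.PA.Stm

set_option autoImplicit false
set_option linter.unusedSectionVars false

/-! Reduction of a polynomial over a field to a cubic one of the shape `q₀(x) + ∑ t_j q_j(x)` with
`deg q₀ ≤ 1` and `deg q_j ≤ 2`, by the moves `F ↦ F + (y - a) (t + e)` with new variables `y`, `t`
(adaptation of `Pool/Agent/W206/CU/Red.lean` from the integers to a field). -/

namespace Pool.Agent.Y468.PA

open MvPolynomial
open Pool.Agent.Y229.PA

variable {k : Type} [Field k]

theorem aeval_elim_rename {ρ : Type} (v : Fin 2 → MvPolynomial (ρ ⊕ Fin 2) k)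
    (a : MvPolynomial ρ k) :
    aeval (Sum.elim (fun i => X (Sum.inl i)) v) (rename Sum.inl a) = rename Sum.inl a := by
  induction a using MvPolynomial.induction_on with
  | C c => rw [rename_C, ← algebraMap_eq, AlgHom.commutes]
  | add p q hp hq => rw [map_add, map_add, hp, hq]
  | mul_X p i hp => rw [map_mul, map_mul, hp, rename_X, aeval_X, Sum.elim_inl]

/-- The automorphism `y ↦ y - a`, `t ↦ t + e`. -/
noncomputable def shear {ρ : Type} (a e : MvPolynomial ρ k) :
    MvPolynomial (ρ ⊕ Fin 2) k ≃ₐ[k] MvPolynomial (ρ ⊕ Fin 2) k :=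
  AlgEquiv.ofAlgHom
    (aeval (Sum.elim (fun i => X (Sum.inl i))
      ![X (Sum.inr 0) - rename Sum.inl a, X (Sum.inr 1) + rename Sum.inl e]))
    (aeval (Sum.elim (fun i => X (Sum.inl i))
      ![X (Sum.inr 0) + rename Sum.inl a, X (Sum.inr 1) - rename Sum.inl e]))
    (by
      apply MvPolynomial.algHom_ext
      rintro (i | i)
      · rw [AlgHom.comp_apply, aeval_X, Sum.elim_inl, aeval_X, Sum.elim_inl, AlgHom.id_apply]
      · fin_cases i
        · rw [AlgHom.comp_apply, aeval_X, Sum.elim_inr]
          simp only [Fin.zero_eta, Matrix.cons_val_zero, map_add, aeval_elim_rename, aeval_X,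
            Sum.elim_inr, AlgHom.id_apply, sub_add_cancel]
        · rw [AlgHom.comp_apply, aeval_X, Sum.elim_inr]
          simp only [Fin.mk_one, Matrix.cons_val_one, Matrix.cons_val_fin_one, map_sub,
            aeval_elim_rename, aeval_X, Sum.elim_inr, AlgHom.id_apply, add_sub_cancel_right])
    (by
      apply MvPolynomial.algHom_ext
      rintro (i | i)
      · rw [AlgHom.comp_apply, aeval_X, Sum.elim_inl, aeval_X, Sum.elim_inl, AlgHom.id_apply]
      · fin_cases i
        · rw [AlgHom.comp_apply, aeval_X, Sum.elim_inr]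
          simp only [Fin.zero_eta, Matrix.cons_val_zero, map_sub, aeval_elim_rename, aeval_X,
            Sum.elim_inr, AlgHom.id_apply, add_sub_cancel_right]
        · rw [AlgHom.comp_apply, aeval_X, Sum.elim_inr]
          simp only [Fin.mk_one, Matrix.cons_val_one, Matrix.cons_val_fin_one, map_add,
            aeval_elim_rename, aeval_X, Sum.elim_inr, AlgHom.id_apply, sub_add_cancel])

theorem shear_rename {ρ : Type} (a e h : MvPolynomial ρ k) :
    shear a e (rename Sum.inl h) = rename Sum.inl h :=
  aeval_elim_rename _ h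

theorem shear_y {ρ : Type} (a e : MvPolynomial ρ k) :
    shear a e (X (Sum.inr 0)) = X (Sum.inr 0) - rename Sum.inl a := by
  change aeval _ _ = _
  rw [aeval_X]
  rfl

theorem shear_t {ρ : Type} (a e : MvPolynomial ρ k) :
    shear a e (X (Sum.inr 1)) = X (Sum.inr 1) + rename Sum.inl e := by
  change aeval _ _ = _
  rw [aeval_X]
  rfl

variable {PP : ∀ (ρ : Type) [Finite ρ], ℕ → MvPolynomial ρ k → Prop}

theorem chain_shear (hc : ChainK PP) {ρ : Type} [Finite ρ] {m : ℕ} {F : MvPolynomial ρ k}
    (h : PP ρ m F) (a e : MvPolynomial ρ k) :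
    PP (ρ ⊕ Fin 2) (m + 1) (rename Sum.inl F +
      (X (Sum.inr 0) - rename Sum.inl a) * (X (Sum.inr 1) + rename Sum.inl e)) := by
  have h1 := hc.iso _ _ (shear a e) _ _ (hc.step ρ m F h)
  rwa [map_add, map_mul, shear_rename, shear_y, shear_t] at h1

/-- A variable `t`, or one. -/
noncomputable def tt {σ τ : Type} (o : Option τ) : MvPolynomial (σ ⊕ τ) k :=
  o.elim 1 fun t => X (Sum.inr t)

/-- The polynomial of a list of monomials `c t x ⋯ x` or `c x ⋯ x`. -/
noncomputable def lp {σ τ : Type} (L : List (k × Option τ × List σ)) : MvPolynomial (σ ⊕ τ) k :=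
  (L.map fun c => C c.1 * tt c.2.1 * (c.2.2.map fun i => X (Sum.inl i)).prod).sum

theorem lp_nil {σ τ : Type} : lp ([] : List (k × Option τ × List σ)) = 0 := by
  simp [lp]

theorem lp_cons {σ τ : Type} (c : k × Option τ × List σ) (L : List (k × Option τ × List σ)) :
    lp (c :: L) = C c.1 * tt c.2.1 * (c.2.2.map fun i => X (Sum.inl i)).prod + lp L := by
  simp [lp]

theorem lp_append {σ τ : Type} (L L' : List (k × Option τ × List σ)) :
    lp (L ++ L') = lp L + lp L' := by
  simp [lp]

/-- Raising a term to the variables `Option σ`, `Option τ`. -/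
def lift {σ τ : Type} (c : k × Option τ × List σ) : k × Option (Option τ) × List (Option σ) :=
  (c.1, c.2.1.map some, c.2.2.map some)

/-- The renaming `(σ ⊕ τ) ⊕ {y, t} ≃ Option σ ⊕ Option τ`. -/
def ren (σ τ : Type) : (σ ⊕ τ) ⊕ Fin 2 ≃ Option σ ⊕ Option τ where
  toFun := Sum.elim (Sum.map some some) ![Sum.inl none, Sum.inr none]
  invFun := Sum.elim (fun o => o.elim (Sum.inr 0) fun i => Sum.inl (Sum.inl i))
    (fun o => o.elim (Sum.inr 1) fun i => Sum.inl (Sum.inr i))
  left_inv := by
    rintro ((i | j) | l)
    · rfl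
    · rfl
    · fin_cases l <;> rfl
  right_inv := by
    rintro ((_ | i) | (_ | j)) <;> rfl

theorem rename_tt {σ τ : Type} (o : Option τ) :
    rename (ren σ τ) (rename Sum.inl (tt o : MvPolynomial (σ ⊕ τ) k)) = tt (o.map some) := by
  cases o with
  | none => simp [tt]
  | some t => simp [tt, rename_X, ren]

theorem rename_lp {σ τ : Type} (L : List (k × Option τ × List σ)) :
    rename (ren σ τ) (rename Sum.inl (lp L)) = lp (L.map lift) := by
  induction L with
  | nil => simp [lp_nil]
  | cons c L ih =>
    rw [List.map_cons, lp_cons, lp_cons, map_add, map_add, ih]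
    congr 1
    simp only [map_mul, rename_C, rename_tt, map_list_prod, List.map_map, lift]
    congr 2
    refine List.map_congr_left fun i _ => ?_
    simp only [Function.comp_apply, rename_X]
    rfl

theorem chain_lpStep (hc : ChainK PP) {σ τ : Type} [Finite σ] [Finite τ] {m : ℕ}
    {L : List (k × Option τ × List σ)} (h : PP (σ ⊕ τ) m (lp L)) (a e : MvPolynomial (σ ⊕ τ) k) :
    PP (Option σ ⊕ Option τ) (m + 1) (lp (L.map lift) +
      (X (Sum.inl none) - rename (ren σ τ) (rename Sum.inl a)) *
      (X (Sum.inr none) + rename (ren σ τ) (rename Sum.inl e))) := by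
  have h1 := hc.iso _ _ (renameEquiv k (ren σ τ)) _ _ (chain_shear hc h a e)
  rw [renameEquiv_apply, map_add, rename_lp, map_mul, map_sub, map_add, rename_X, rename_X] at h1
  exact h1

/-- The terms without `t` have degree at most one. -/
def Lin {σ τ : Type} (L : List (k × Option τ × List σ)) : Prop :=
  ∀ c ∈ L, c.2.1 = none → c.2.2.length ≤ 1

theorem lin_lift {σ τ : Type} {L : List (k × Option τ × List σ)} (h : Lin L) :
    Lin (L.map lift) := by
  intro c hc h0
  obtain ⟨d, hd, rfl⟩ := List.mem_map.1 hc
  have h1 : d.2.1 = none := by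
    simpa [lift] using h0
  have h2 := h d hd h1
  simpa [lift] using h2

theorem lin_cons {σ τ : Type} {c : k × Option τ × List σ} {L : List (k × Option τ × List σ)}
    (hc : c.2.1 = none → c.2.2.length ≤ 1) (h : Lin L) : Lin (c :: L) := by
  intro d hd
  rcases List.mem_cons.1 hd with rfl | hd
  · exact hc
  · exact h d hd

/-- The total excess of the degrees in `x` over two. -/
def excess {σ τ : Type} (L : List (k × Option τ × List σ)) : ℕ :=
  (L.map fun c => c.2.2.length - 2).sum

theorem excess_cons {σ τ : Type} (c : k × Option τ × List σ) (L : List (k × Option τ × List σ)) :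
    excess (c :: L) = (c.2.2.length - 2) + excess L := by
  simp [excess]

theorem excess_append {σ τ : Type} (L L' : List (k × Option τ × List σ)) :
    excess (L ++ L') = excess L + excess L' := by
  simp [excess]

theorem excess_lift {σ τ : Type} (L : List (k × Option τ × List σ)) :
    excess (L.map lift) = excess L := by
  simp [excess, lift, Function.comp_def]

/-- One move lowers the excess. -/
theorem chain_reduce (hc : ChainK PP) {σ τ : Type} [Finite σ] [Finite τ] {m : ℕ}
    {L : List (k × Option τ × List σ)} (h : PP (σ ⊕ τ) m (lp L)) (hL : ∃ c ∈ L, 2 < c.2.2.length)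
    (hs : Lin L) :
    ∃ L' : List (k × Option (Option τ) × List (Option σ)), excess L' < excess L ∧ Lin L' ∧
      PP (Option σ ⊕ Option τ) (m + 1) (lp L') := by
  obtain ⟨⟨c, o, l⟩, hcL, hl⟩ := hL
  have hso := hs _ hcL
  obtain ⟨s, s', rfl⟩ := List.append_of_mem hcL
  simp only at hl hso
  match o, l, hl, hso with
  | none, l, hl, hso =>
    have := hso rfl
    omega
  | some t, i :: j :: u :: l, hl, hso =>
    refine ⟨(1, some none, [none]) :: (-1, some none, [some i, some j]) ::
      (c, some (some t), none :: some u :: l.map some) :: (s ++ s').map lift, ?_, ?_, ?_⟩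
    · simp only [excess_cons, excess_append, List.map_append, excess_lift, List.length_cons,
        List.length_nil, List.length_map]
      omega
    · have h1 : Lin (s ++ s') := fun d hd' => hs d (by
        rcases List.mem_append.1 hd' with h' | h'
        · exact List.mem_append_left _ h'
        · exact List.mem_append_right _ (List.mem_cons_of_mem _ h'))
      exact lin_cons (by simp) (lin_cons (by simp) (lin_cons (by simp) (lin_lift h1)))
    · have h1 := chain_lpStep hc h (X (Sum.inl i) * X (Sum.inl j))
        (C c * X (Sum.inr t) * (X (Sum.inl u) * (l.map fun i => X (Sum.inl i)).prod))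
      convert h1 using 1
      simp only [List.map_append, List.map_cons, lp_append, lp_cons, lift, List.prod_cons,
        List.prod_nil, List.map_nil, List.map_map, map_mul, rename_C, rename_X, map_list_prod,
        Function.comp_def, tt, Option.elim_some, Option.map_some]
      simp only [ren, Equiv.coe_fn_mk, Sum.elim_inl, Sum.map_inl, Sum.map_inr, map_one, map_neg]
      ring

/-- A move which replaces a monomial without `t` by a new variable. -/
theorem chain_replace (hc : ChainK PP) {σ τ : Type} [Finite σ] [Finite τ] {m : ℕ}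
    {c : k} {l : List σ} {U V : List (k × Option τ × List σ)}
    (h : PP (σ ⊕ τ) m (lp (((c, none, l) :: U) ++ V))) :
    PP (Option σ ⊕ Option τ) (m + 1) (lp (U.map lift ++ ((c, none, [none]) ::
      (1, some none, [none]) :: (-1, some none, l.map some) :: V.map lift))) := by
  have h1 := chain_lpStep hc h ((l.map fun i => X (Sum.inl i)).prod) (C c)
  convert h1 using 1
  simp only [List.map_append, List.map_cons, lp_append, lp_cons, lift, List.prod_cons,
    List.prod_nil, List.map_nil, List.map_map, map_mul, rename_C, rename_X, map_list_prod,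
    Function.comp_def, tt, Option.elim_some, Option.map_some, Option.elim_none, Option.map_none]
  simp only [ren, Equiv.coe_fn_mk, Sum.elim_inl, Sum.map_inl, Sum.map_inr, map_one, map_neg]
  ring

theorem chain_linear (hc : ChainK PP) (N : ℕ) {σ τ : Type} [Finite σ] [Finite τ] {m : ℕ}
    {U V : List (k × Option τ × List σ)} (hU : U.length = N) (hU0 : ∀ c ∈ U, c.2.1 = none)
    (hd : Lin V) (h : PP (σ ⊕ τ) m (lp (U ++ V))) :
    ∃ (σ' τ' : Type) (_ : Finite σ') (_ : Finite τ') (L' : List (k × Option τ' × List σ'))
      (m' : ℕ), Lin L' ∧ PP (σ' ⊕ τ') m' (lp L') := by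
  induction N generalizing σ τ m with
  | zero =>
    rw [List.length_eq_zero_iff] at hU
    subst hU
    exact ⟨σ, τ, inferInstance, inferInstance, V, m, hd, h⟩
  | succ N ih =>
    obtain ⟨⟨c, o, l⟩, U', rfl⟩ := List.exists_cons_of_length_eq_add_one hU
    have ho : o = none := hU0 (c, o, l) List.mem_cons_self
    subst ho
    have h1 := chain_replace hc h
    rw [List.length_cons, Nat.add_right_cancel_iff] at hU
    refine ih (by rw [List.length_map, hU]) ?_ ?_ h1
    · intro d hd'
      obtain ⟨d', hd'', rfl⟩ := List.mem_map.1 hd'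
      have := hU0 d' (List.mem_cons_of_mem _ hd'')
      simp [lift, this]
    · exact lin_cons (by simp) (lin_cons (by simp) (lin_cons (by simp) (lin_lift hd)))

theorem chain_quadratic (hc : ChainK PP) {σ τ : Type} [Finite σ] [Finite τ] {m : ℕ}
    {L : List (k × Option τ × List σ)} (hs : Lin L) (h : PP (σ ⊕ τ) m (lp L)) :
    ∃ (σ' τ' : Type) (_ : Finite σ') (_ : Finite τ') (L' : List (k × Option τ' × List σ'))
      (m' : ℕ), (∀ c ∈ L', c.2.2.length ≤ 2) ∧ Lin L' ∧ PP (σ' ⊕ τ') m' (lp L') := by
  induction hN : excess L using Nat.strong_induction_on generalizing σ τ m with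
  | _ N ih =>
    by_cases hL : ∃ c ∈ L, 2 < c.2.2.length
    · obtain ⟨L', hlt, hs', h'⟩ := chain_reduce hc h hL hs
      exact ih _ (hN ▸ hlt) hs' h' rfl
    · push Not at hL
      exact ⟨σ, τ, inferInstance, inferInstance, L, m, hL, hs, h⟩

theorem totalDegree_term {n : ℕ} (c : k) (l : List (Fin n)) :
    (C c * (l.map fun i => X i).prod : MvPolynomial (Fin n) k).totalDegree ≤ l.length := by
  refine (totalDegree_mul _ _).trans ?_
  rw [totalDegree_C, zero_add]
  refine (totalDegree_list_prod _).trans ?_
  rw [List.map_map]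
  induction l with
  | nil => simp
  | cons a l ih =>
    simp only [List.map_cons, List.sum_cons, List.length_cons, Function.comp_apply,
      totalDegree_X] at ih ⊢
    omega

/-- A list with monomials of degree at most two in `x`, of degree at most one for those without
`t`, gives a polynomial `q₀(x) + ∑ t_j q_j(x)`. -/
theorem exists_cubicK {σ τ : Type} {n r : ℕ} (e : σ → Fin n) (e' : τ → Fin r)
    (L : List (k × Option τ × List σ)) (hL : ∀ c ∈ L, c.2.2.length ≤ 2) (hs : Lin L) :
    ∃ (q₀ : MvPolynomial (Fin n) k) (q : Fin r → MvPolynomial (Fin n) k),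
      q₀.totalDegree ≤ 1 ∧ (∀ j, (q j).totalDegree ≤ 2) ∧
      rename (Sum.elim (fun i => Fin.castAdd r (e i)) (fun t => Fin.natAdd n (e' t))) (lp L) =
        cubicK q₀ q := by
  classical
  induction L with
  | nil => exact ⟨0, 0, by simp, by simp, by simp [cubicK, lp_nil]⟩
  | cons c L ih =>
    obtain ⟨q₀, q, hq0, hq, hq'⟩ := ih (fun c hc => hL c (List.mem_cons_of_mem _ hc))
      (fun c hc => hs c (List.mem_cons_of_mem _ hc))
    obtain ⟨c, o, l⟩ := c
    have hl := hL _ List.mem_cons_self
    have hso := hs _ List.mem_cons_self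
    simp only at hl hso
    cases o with
    | none =>
      refine ⟨C c * ((l.map e).map fun i => X i).prod + q₀, q, ?_, hq, ?_⟩
      · refine (totalDegree_add _ _).trans (max_le ?_ hq0)
        refine (totalDegree_term c (l.map e)).trans ?_
        rw [List.length_map]
        exact hso rfl
      · rw [lp_cons, map_add, hq', cubicK, cubicK, map_add]
        simp only [map_mul, rename_C, rename_X, map_list_prod, List.map_map,
          Function.comp_def, Sum.elim_inl, tt, Option.elim_none, map_one]
        ring
    | some t =>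
      refine ⟨q₀, fun j => (if j = e' t then C c * ((l.map e).map fun i => X i).prod else 0)
        + q j, hq0, fun j => ?_, ?_⟩
      · refine (totalDegree_add _ _).trans (max_le ?_ (hq j))
        split_ifs
        · refine (totalDegree_term c (l.map e)).trans ?_
          rw [List.length_map]
          exact hl
        · simp
      · have hsum : ∑ x : Fin r, (X (Fin.natAdd n x) * rename (Fin.castAdd r)
            (if x = e' t then C c * ((l.map e).map fun i => X i).prod else 0) :
              MvPolynomial (Fin (n + r)) k) =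
            X (Fin.natAdd n (e' t)) * rename (Fin.castAdd r)
              (C c * ((l.map e).map fun i => X i).prod) := by
          rw [Finset.sum_eq_single (e' t)]
          · rw [if_pos rfl]
          · intro j _ hj
            rw [if_neg hj, map_zero, mul_zero]
          · simp
        rw [lp_cons, map_add, hq', cubicK, cubicK]
        simp only [map_add, mul_add, Finset.sum_add_distrib]
        rw [hsum]
        simp only [map_mul, rename_C, rename_X, map_list_prod, List.map_map,
          Function.comp_def, Sum.elim_inl, Sum.elim_inr, tt, Option.elim_some]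
        ring

/-- Every polynomial is given by a list of monomials without `t`. -/
theorem exists_lp {n : ℕ} (f : MvPolynomial (Fin n) k) :
    ∃ L : List (k × Option (Fin 0) × List (Fin n)), (∀ c ∈ L, c.2.1 = none) ∧
      rename Sum.inl f = lp L := by
  induction f using MvPolynomial.induction_on with
  | C a =>
    exact ⟨[(a, none, [])], by simp, by simp [lp, tt]⟩
  | add p q hp hq =>
    obtain ⟨L, hs, hL⟩ := hp
    obtain ⟨L', hs', hL'⟩ := hq
    refine ⟨L ++ L', ?_, by rw [lp_append, ← hL, ← hL', map_add]⟩
    intro c hc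
    rcases List.mem_append.1 hc with h | h
    · exact hs c h
    · exact hs' c h
  | mul_X p i hp =>
    obtain ⟨L, hs, hL⟩ := hp
    refine ⟨L.map fun c => (c.1, c.2.1, i :: c.2.2), ?_, ?_⟩
    · intro c hc
      obtain ⟨d, hd, rfl⟩ := List.mem_map.1 hc
      exact hs d hd
    · rw [map_mul, hL, rename_X]
      clear hL hs
      induction L with
      | nil => simp [lp_nil]
      | cons c L ih =>
        rw [List.map_cons, lp_cons, lp_cons, add_mul, ih]
        simp only [List.map_cons, List.prod_cons]
        ring

/-- (RED) -/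
theorem red : TaskRED := by
  intro k _ PP hc n f h
  obtain ⟨L, hs, hL⟩ := exists_lp f
  have h0 : PP (Fin n ⊕ Fin 0) 0 (lp L) := by
    have h1 := hc.iso _ _ (renameEquiv k (Equiv.sumEmpty (Fin n) (Fin 0)).symm) _ _ h
    rw [renameEquiv_apply] at h1
    have h2 : (⇑(Equiv.sumEmpty (Fin n) (Fin 0)).symm : Fin n → Fin n ⊕ Fin 0) = Sum.inl := rfl
    rw [h2, hL] at h1
    exact h1
  obtain ⟨σ, τ, i1, i2, L2, m2, hs2, h2⟩ :=
    chain_linear hc L.length (U := L) (V := []) rfl hs (by intro c hc; simp at hc)
      (by rwa [List.append_nil])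
  obtain ⟨σ', τ', i5, i6, L3, m, hq3, hs3, h3⟩ := chain_quadratic hc hs2 h2
  obtain ⟨n', ⟨e⟩⟩ := Finite.exists_equiv_fin σ'
  obtain ⟨r, ⟨e'⟩⟩ := Finite.exists_equiv_fin τ'
  obtain ⟨q₀, q, hq0, hq, hq'⟩ := exists_cubicK e e' L3 hq3 hs3
  refine ⟨n', r, m, q₀, q, hq0, hq, ?_⟩
  have h4 := hc.iso _ _ (renameEquiv k ((Equiv.sumCongr e e').trans finSumFinEquiv)) _ _ h3
  have h5 : (⇑((e.sumCongr e').trans finSumFinEquiv) : σ' ⊕ τ' → Fin (n' + r)) =
      Sum.elim (fun i => Fin.castAdd r (e i)) (fun t => Fin.natAdd n' (e' t)) := by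
    funext x
    rcases x with i | t
    · simp
    · simp
  rw [renameEquiv_apply, h5, hq'] at h4
  exact h4

end Pool.Agent.Y468.PA
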